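import Mathlib

/-! One-parameter families of monotone maps of the line: zeros of the displacement. -/

open Set Filter Topology

namespace Pool.Agent.Helper16.CB

/-- The displacement functions `H c` of a family of maps, increasing in the parameter, without degenerate
zeros for `|c| < κ`. -/
structure Fam (κ : ℝ) (H : ℝ → ℝ → ℝ) : Prop where
  cont : Continuous (fun q : ℝ × ℝ => H q.1 q.2)
  per : ∀ c t, H c (t + 1) = H c t
  inc : ∀ c c' t, c ≤ c' → H c t + (c' - c) ≤ H c' t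
  ndx : ∀ c t, |c| < κ → H c t = 0 → ¬ IsLocalMax (H c) t
  ndn : ∀ c t, |c| < κ → H c t = 0 → ¬ IsLocalMin (H c) t

variable {κ : ℝ} {H : ℝ → ℝ → ℝ}

lemma Fam.neg (h : Fam κ H) : Fam κ (fun c t => - H (-c) t) where
  cont := by
    have h1 : Continuous (fun q : ℝ × ℝ => H (-q.1) q.2) :=
      h.cont.comp (continuous_fst.neg.prodMk continuous_snd)
    exact h1.neg
  per := fun c t => by rw [h.per]
  inc := fun c c' t hc => by
    have := h.inc (-c') (-c) t (by linarith)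
    linarith
  ndx := fun c t hc h0 hm => by
    refine h.ndn (-c) t (by rwa [abs_neg]) (by linarith) ?_
    filter_upwards [hm] with s hs
    linarith
  ndn := fun c t hc h0 hm => by
    refine h.ndx (-c) t (by rwa [abs_neg]) (by linarith) ?_
    filter_upwards [hm] with s hs
    linarith

lemma Fam.cont1 (h : Fam κ H) (c : ℝ) : Continuous (H c) :=
  h.cont.comp (continuous_const.prodMk continuous_id)

lemma Fam.cont2 (h : Fam κ H) (t : ℝ) : Continuous (fun c => H c t) :=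
  h.cont.comp (continuous_id.prodMk continuous_const)

lemma Fam.per_int (h : Fam κ H) (c t : ℝ) (l : ℤ) : H c (t + l) = H c t := by
  have h1 : Function.Periodic (H c) 1 := h.per c
  have h2 := h1.int_mul l t
  rw [mul_one] at h2
  exact h2

lemma Fam.fract (h : Fam κ H) (c t : ℝ) : H c (Int.fract t) = H c t := by
  have h1 := h.per_int c (Int.fract t) ⌊t⌋
  rw [Int.fract_add_floor] at h1
  exact h1.symm

lemma Fam.zero_pos (h : Fam κ H) {c₁ t₁ : ℝ} (hc0 : 0 ≤ c₁) (hc : c₁ < κ) (h1 : H c₁ t₁ = 0) :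
    ∃ t, H 0 t = 0 := by
  by_contra hcon
  push Not at hcon
  have hneg : ∀ t, H 0 t < 0 := by
    have h2 : H 0 t₁ < 0 := by
      have h3 := h.inc 0 c₁ t₁ hc0
      exact lt_of_le_of_ne (by linarith) (hcon t₁)
    intro t
    by_contra h3
    have h4 : 0 ≤ H 0 t := not_lt.1 h3
    have h5 : (0:ℝ) ∈ H 0 '' uIcc t₁ t :=
      intermediate_value_uIcc (h.cont1 0).continuousOn (mem_uIcc.2 (Or.inl ⟨h2.le, h4⟩))
    obtain ⟨s, -, hs⟩ := h5
    exact hcon s hs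
  have hT : IsCompact ((Icc 0 c₁ ×ˢ Icc (0:ℝ) 1) ∩ {q : ℝ × ℝ | 0 ≤ H q.1 q.2}) :=
    (isCompact_Icc.prod isCompact_Icc).inter_right (isClosed_le continuous_const h.cont)
  have hne : ((Icc 0 c₁ ×ˢ Icc (0:ℝ) 1) ∩ {q : ℝ × ℝ | 0 ≤ H q.1 q.2}).Nonempty :=
    ⟨(c₁, Int.fract t₁), ⟨⟨hc0, le_rfl⟩, ⟨Int.fract_nonneg _, (Int.fract_lt_one _).le⟩⟩, by
      show 0 ≤ H c₁ (Int.fract t₁)
      rw [h.fract, h1]⟩
  obtain ⟨c, ⟨⟨q, ⟨⟨hq1, hq2⟩, hq3⟩, rfl⟩, hleast⟩⟩ :=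
    (hT.image continuous_fst).exists_isLeast (hne.image _)
  have hq0 : 0 < q.1 := by
    rcases hq1.1.lt_or_eq with h2 | h2
    · exact h2
    · exfalso
      have h3 : 0 ≤ H q.1 q.2 := hq3
      rw [← h2] at h3
      exact absurd (hneg q.2) (not_lt.2 h3)
  have hlow : ∀ c, 0 ≤ c → c < q.1 → ∀ t, H c t < 0 := by
    intro c hc0 hcq t
    by_contra h3
    have h4 : 0 ≤ H c t := not_lt.1 h3
    have h5 : q.1 ≤ c := hleast ⟨(c, Int.fract t), ⟨⟨⟨hc0, (hcq.le.trans hq1.2)⟩,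
      ⟨Int.fract_nonneg _, (Int.fract_lt_one _).le⟩⟩, by
        show 0 ≤ H c (Int.fract t)
        rw [h.fract]; exact h4⟩, rfl⟩
    linarith
  have hle : ∀ t, H q.1 t ≤ 0 := by
    intro t
    have h3 : Tendsto (fun c => H c t) (𝓝[<] q.1) (𝓝 (H q.1 t)) :=
      ((h.cont2 t).tendsto _).mono_left nhdsWithin_le_nhds
    refine le_of_tendsto h3 ?_
    have h4 : ∀ᶠ c in 𝓝[<] q.1, 0 < c := mem_nhdsWithin_of_mem_nhds (lt_mem_nhds hq0)
    filter_upwards [h4, self_mem_nhdsWithin] with c h5 h6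
    exact (hlow c h5.le h6 t).le
  have hz : H q.1 q.2 = 0 := le_antisymm (hle _) hq3
  refine h.ndx q.1 q.2 ?_ hz ?_
  · rw [abs_of_pos hq0]
    exact hq1.2.trans_lt hc
  · exact Eventually.of_forall fun s => by rw [hz]; exact hle s

/-- a zero for a small parameter gives a zero for the parameter `0` -/
theorem Fam.exists_zero (h : Fam κ H) {c₁ t₁ : ℝ} (hc : |c₁| < κ) (h1 : H c₁ t₁ = 0) :
    ∃ t, H 0 t = 0 := by
  rcases le_total 0 c₁ with h2 | h2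
  · exact h.zero_pos h2 (by rwa [abs_of_nonneg h2] at hc) h1
  · obtain ⟨t, ht⟩ := h.neg.zero_pos (c₁ := -c₁) (t₁ := t₁) (by linarith)
      (by rwa [abs_of_nonpos h2] at hc) (by simp [h1])
    refine ⟨t, ?_⟩
    simpa using ht

/-- maximal intervals where a function is negative -/
lemma neg_interval {f : ℝ → ℝ} (hf : Continuous f) {u s v : ℝ} (hus : u < s) (hsv : s < v)
    (hs : f s < 0) (hu : 0 ≤ f u) (hv : 0 ≤ f v) :
    ∃ a b, u ≤ a ∧ a < s ∧ s < b ∧ b ≤ v ∧ f a = 0 ∧ f b = 0 ∧ ∀ t ∈ Ioo a b, f t < 0 := by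
  have hA : IsCompact (Icc u s ∩ {t | 0 ≤ f t}) :=
    isCompact_Icc.inter_right (isClosed_le continuous_const hf)
  obtain ⟨a, ⟨⟨ha1, ha2⟩, ha3⟩, hag⟩ := hA.exists_isGreatest ⟨u, ⟨le_rfl, hus.le⟩, hu⟩
  have hB : IsCompact (Icc s v ∩ {t | 0 ≤ f t}) :=
    isCompact_Icc.inter_right (isClosed_le continuous_const hf)
  obtain ⟨b, ⟨⟨hb1, hb2⟩, hb3⟩, hbg⟩ := hB.exists_isLeast ⟨v, ⟨hsv.le, le_rfl⟩, hv⟩
  have has : a < s := lt_of_le_of_ne ha2 (fun h => by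
    have h1 : 0 ≤ f a := ha3
    rw [h] at h1; linarith)
  have hsb : s < b := lt_of_le_of_ne hb1 (fun h => by
    have h1 : 0 ≤ f b := hb3
    rw [← h] at h1; linarith)
  have hneg : ∀ t ∈ Ioo a b, f t < 0 := by
    intro t ht
    by_contra h1
    have h2 : 0 ≤ f t := not_lt.1 h1
    rcases le_total t s with h3 | h3
    · have := hag ⟨⟨ha1.trans ht.1.le, h3⟩, h2⟩
      exact absurd ht.1 (not_lt.2 this)
    · have := hbg ⟨⟨h3, ht.2.le.trans hb2⟩, h2⟩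
      exact absurd ht.2 (not_lt.2 this)
  refine ⟨a, b, ha1, has, hsb, hb2, le_antisymm ?_ ha3, le_antisymm ?_ hb3, hneg⟩
  · have h3 : Tendsto f (𝓝[>] a) (𝓝 (f a)) := (hf.tendsto _).mono_left nhdsWithin_le_nhds
    refine le_of_tendsto h3 ?_
    have h4 : ∀ᶠ c in 𝓝[>] a, c < b := mem_nhdsWithin_of_mem_nhds (gt_mem_nhds (has.trans hsb))
    filter_upwards [h4, self_mem_nhdsWithin] with c h5 h6
    exact (hneg c ⟨h6, h5⟩).le
  · have h3 : Tendsto f (𝓝[<] b) (𝓝 (f b)) := (hf.tendsto _).mono_left nhdsWithin_le_nhds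
    refine le_of_tendsto h3 ?_
    have h4 : ∀ᶠ c in 𝓝[<] b, a < c := mem_nhdsWithin_of_mem_nhds (lt_mem_nhds (has.trans hsb))
    filter_upwards [h4, self_mem_nhdsWithin] with c h5 h6
    exact (hneg c ⟨h5, h6⟩).le

/-- a negative interval between two zeros is deep -/
lemma Fam.deep (h : Fam κ H) (hκ : 0 < κ) {a b : ℝ} (hab : a < b) (ha : H 0 a = 0) (hb : H 0 b = 0)
    (hneg : ∀ t ∈ Ioo a b, H 0 t < 0) : ∃ s ∈ Ioo a b, H 0 s ≤ -(κ / 2) := by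
  by_contra hcon
  push Not at hcon
  have hT : IsCompact ((Icc 0 (κ / 2) ×ˢ Icc a b) ∩ {q : ℝ × ℝ | H q.1 q.2 ≤ 0}) :=
    (isCompact_Icc.prod isCompact_Icc).inter_right (isClosed_le h.cont continuous_const)
  have hne : ((Icc 0 (κ / 2) ×ˢ Icc a b) ∩ {q : ℝ × ℝ | H q.1 q.2 ≤ 0}).Nonempty :=
    ⟨(0, a), ⟨⟨le_rfl, by positivity⟩, ⟨le_rfl, hab.le⟩⟩, ha.le⟩
  obtain ⟨c, ⟨⟨q, ⟨⟨hq1, hq2⟩, hq3⟩, rfl⟩, hgr⟩⟩ :=
    (hT.image continuous_fst).exists_isGreatest (hne.image _)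
  have hq3' : H q.1 q.2 ≤ 0 := hq3
  -- the parameter is positive
  have hq0 : 0 < q.1 := by
    obtain ⟨s, hs⟩ : ∃ s, s = (a + b) / 2 := ⟨_, rfl⟩
    have hsab : s ∈ Ioo a b := ⟨by rw [hs]; linarith, by rw [hs]; linarith⟩
    have h1 : ∀ᶠ c in 𝓝[>] (0:ℝ), H c s < 0 :=
      mem_nhdsWithin_of_mem_nhds (((h.cont2 s).tendsto 0).eventually (gt_mem_nhds (hneg s hsab)))
    have h2 : ∀ᶠ c in 𝓝[>] (0:ℝ), c < κ / 2 :=
      mem_nhdsWithin_of_mem_nhds (gt_mem_nhds (by positivity))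
    obtain ⟨c, h3, h4, h5⟩ := (h1.and (h2.and self_mem_nhdsWithin)).exists
    have h5' : 0 < c := h5
    have h6 : c ≤ q.1 := hgr ⟨(c, s), ⟨⟨⟨h5'.le, h4.le⟩, ⟨hsab.1.le, hsab.2.le⟩⟩, h3.le⟩, rfl⟩
    linarith
  have hqκ : q.1 < κ / 2 := by
    rcases hq1.2.lt_or_eq with h1 | h1
    · exact h1
    · exfalso
      have h2 := h.inc 0 q.1 q.2 hq0.le
      have h3 : -(κ / 2) < H 0 q.2 := by
        rcases hq2.1.lt_or_eq with h4 | h4
        · rcases hq2.2.lt_or_eq with h5 | h5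
          · exact hcon _ ⟨h4, h5⟩
          · rw [h5, hb]; linarith
        · rw [← h4, ha]; linarith
      linarith
  have hqa : a < q.2 := by
    rcases hq2.1.lt_or_eq with h4 | h4
    · exact h4
    · exfalso
      have h2 := h.inc 0 q.1 q.2 hq0.le
      rw [← h4] at h2 hq3'
      linarith
  have hqb : q.2 < b := by
    rcases hq2.2.lt_or_eq with h4 | h4
    · exact h4
    · exfalso
      have h2 := h.inc 0 q.1 q.2 hq0.le
      rw [h4] at h2 hq3'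
      linarith
  have hhigh : ∀ c, q.1 < c → c ≤ κ / 2 → ∀ t ∈ Icc a b, 0 < H c t := by
    intro c hc hc' t ht
    by_contra h3
    have h5 : c ≤ q.1 := hgr ⟨(c, t), ⟨⟨⟨(hq0.trans hc).le, hc'⟩, ht⟩, not_lt.1 h3⟩, rfl⟩
    linarith
  have hge : ∀ t ∈ Icc a b, 0 ≤ H q.1 t := by
    intro t ht
    have h3 : Tendsto (fun c => H c t) (𝓝[>] q.1) (𝓝 (H q.1 t)) :=
      ((h.cont2 t).tendsto _).mono_left nhdsWithin_le_nhds
    refine ge_of_tendsto h3 ?_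
    have h4 : ∀ᶠ c in 𝓝[>] q.1, c < κ / 2 := mem_nhdsWithin_of_mem_nhds (gt_mem_nhds hqκ)
    filter_upwards [h4, self_mem_nhdsWithin] with c h5 h6
    exact (hhigh c h6 h5.le t ht).le
  have hz : H q.1 q.2 = 0 := le_antisymm hq3' (hge _ ⟨hqa.le, hqb.le⟩)
  refine h.ndn q.1 q.2 ?_ hz ?_
  · rw [abs_of_pos hq0]
    linarith
  · filter_upwards [Ioo_mem_nhds hqa hqb] with s hs
    rw [hz]
    exact hge s ⟨hs.1.le, hs.2.le⟩

/-- distinct zeros are far apart -/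
theorem Fam.sep (h : Fam κ H) (hκ : 0 < κ) (hmono : ∀ t t', t ≤ t' → H 0 t + t ≤ H 0 t' + t')
    {a b : ℝ} (hab : a < b) (ha : H 0 a = 0) (hb : H 0 b = 0) : κ / 2 ≤ b - a := by
  by_contra hcon
  push Not at hcon
  have hz : ∀ s ∈ Ioo a b, H 0 s = 0 := by
    intro s hs
    rcases lt_trichotomy (H 0 s) 0 with h1 | h1 | h1
    · exfalso
      obtain ⟨a', b', g2, g3, g4, g5, g6, g7, g8⟩ := neg_interval (h.cont1 0) hs.1 hs.2 h1 ha.ge
        hb.ge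
      obtain ⟨s', hs', hd⟩ := h.deep hκ (g3.trans g4) g6 g7 g8
      have := hmono a' s' hs'.1.le
      linarith [hs'.2]
    · exact h1
    · exfalso
      have hn := h.neg
      have e : ∀ t, -(H (-0) t) = - H 0 t := fun t => by rw [neg_zero]
      obtain ⟨a', b', g2, g3, g4, g5, g6, g7, g8⟩ := neg_interval (hn.cont1 0) hs.1 hs.2
        (by show -(H (-0) s) < 0; rw [e]; linarith) (by show 0 ≤ -(H (-0) a); rw [e]; linarith)
        (by show 0 ≤ -(H (-0) b); rw [e]; linarith)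
      obtain ⟨s', hs', hd⟩ := hn.deep hκ (g3.trans g4) g6 g7 g8
      have hd' : -(H (-0) s') ≤ -(κ / 2) := hd
      have g7' : -(H (-0) b') = 0 := g7
      rw [e] at hd' g7'
      have := hmono s' b' hs'.2.le
      linarith [hs'.1]
  have hm : (a + b) / 2 ∈ Ioo a b := ⟨by linarith, by linarith⟩
  refine h.ndx 0 ((a + b) / 2) (by rw [abs_zero]; exact hκ) (hz _ hm) ?_
  filter_upwards [Ioo_mem_nhds hm.1 hm.2] with s hs
  rw [hz s hs, hz _ hm]

/-- sign of a continuous function without zeros on an interval -/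
lemma sign_Ioo {f : ℝ → ℝ} (hf : Continuous f) {a b : ℝ} (h0 : ∀ s ∈ Ioo a b, f s ≠ 0) :
    (∀ s ∈ Ioo a b, f s < 0) ∨ ∀ s ∈ Ioo a b, 0 < f s := by
  by_contra hcon
  push Not at hcon
  obtain ⟨⟨s, hs, hs1⟩, s', hs', hs1'⟩ := hcon
  have h1 : (f '' Ioo a b).OrdConnected :=
    (isPreconnected_Ioo.image f hf.continuousOn).ordConnected
  obtain ⟨t, ht, ht0⟩ := h1.out ⟨s', hs', rfl⟩ ⟨s, hs, rfl⟩ (show (0 : ℝ) ∈ Icc (f s') (f s) from
    ⟨hs1', hs1⟩)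
  exact h0 t ht ht0

/-- a zero is attracting or repelling, with a basin of a uniform size -/
theorem Fam.basin (h : Fam κ H) (hκ : 0 < κ) (hmono : ∀ t t', t ≤ t' → H 0 t + t ≤ H 0 t' + t')
    (h0 : H 0 0 = 0) :
    ((∀ s ∈ Ioo 0 (κ / 2), H 0 s < 0) ∧ ∀ s ∈ Ioo (-(κ / 2)) 0, 0 < H 0 s) ∨
    ((∀ s ∈ Ioo 0 (κ / 2), 0 < H 0 s) ∧ ∀ s ∈ Ioo (-(κ / 2)) 0, H 0 s < 0) := by
  have h1 : ∀ s ∈ Ioo 0 (κ / 2), H 0 s ≠ 0 := by
    intro s hs hz
    have := h.sep hκ hmono hs.1 h0 hz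
    linarith [hs.2]
  have h2 : ∀ s ∈ Ioo (-(κ / 2)) 0, H 0 s ≠ 0 := by
    intro s hs hz
    have := h.sep hκ hmono hs.2 hz h0
    linarith [hs.1]
  have hn : Ioo (-(κ / 2)) (κ / 2) ∈ 𝓝 (0 : ℝ) := Ioo_mem_nhds (by linarith) (by linarith)
  rcases sign_Ioo (h.cont1 0) h1 with h3 | h3 <;> rcases sign_Ioo (h.cont1 0) h2 with h4 | h4
  · exfalso
    refine h.ndx 0 0 (by rw [abs_zero]; exact hκ) h0 ?_
    filter_upwards [hn] with s hs
    rw [h0]
    rcases lt_trichotomy s 0 with h5 | h5 | h5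
    · exact (h4 s ⟨hs.1, h5⟩).le
    · rw [h5, h0]
    · exact (h3 s ⟨h5, hs.2⟩).le
  · exact Or.inl ⟨h3, h4⟩
  · exact Or.inr ⟨h3, h4⟩
  · exfalso
    refine h.ndn 0 0 (by rw [abs_zero]; exact hκ) h0 ?_
    filter_upwards [hn] with s hs
    rw [h0]
    rcases lt_trichotomy s 0 with h5 | h5 | h5
    · exact (h4 s ⟨hs.1, h5⟩).le
    · rw [h5, h0]
    · exact (h3 s ⟨h5, hs.2⟩).le

end Pool.Agent.Helper16.CB
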