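import Mathlib
import Pool.Agent.Helper16.CB.Pure

/-! Maps which send circles (orbits of period one of a flow) to circles: lifts to the line. -/

open Set Filter Topology

namespace Pool.Agent.Helper16.CB

universe u

/-- an action of `ℝ` -/
structure Flw {N : Type u} (R : ℝ → N → N) : Prop where
  zero : ∀ y, R 0 y = y
  add : ∀ a b y, R (a + b) y = R a (R b y)

/-- the orbit of `y` is periodic with least period one -/
def Cy {N : Type u} (R : ℝ → N → N) (y : N) : Prop := ∀ t, R t y = y ↔ ∃ l : ℤ, t = l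

variable {N : Type u} {R : ℝ → N → N}

lemma Flw.comm (h : Flw R) (a b : ℝ) (y : N) : R a (R b y) = R b (R a y) := by
  rw [← h.add, ← h.add, add_comm]

lemma Flw.canc (h : Flw R) {a : ℝ} {x y : N} (hxy : R a x = R a y) : x = y := by
  have h1 : R (-a) (R a x) = R (-a) (R a y) := by rw [hxy]
  rwa [← h.add, ← h.add, neg_add_cancel, h.zero, h.zero] at h1

lemma Cy.int {y : N} (hy : Cy R y) (l : ℤ) : R l y = y := (hy l).2 ⟨l, rfl⟩

lemma Cy.inj (h : Flw R) {y : N} (hy : Cy R y) {s t : ℝ} (hst : R s y = R t y) :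
    ∃ l : ℤ, s - t = l := by
  apply (hy _).1
  have h1 : R (s - t) y = R (-t) (R s y) := by rw [← h.add]; congr 1; ring
  rw [h1, hst, ← h.add, neg_add_cancel, h.zero]

lemma Cy.add_int (h : Flw R) {y : N} (hy : Cy R y) (s : ℝ) (l : ℤ) : R (s + l) y = R s y := by
  rw [h.add, hy.int]

lemma Cy.shift (h : Flw R) {y : N} (hy : Cy R y) (a : ℝ) : Cy R (R a y) := by
  intro t
  rw [h.comm, ← hy t]
  exact ⟨fun h1 => h.canc h1, fun h1 => by rw [h1]⟩

/-- a lift of `F` on the circle of `y` -/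
structure Lft (R : ℝ → N → N) (F : N → N) (y : N) (g : ℝ → ℝ) : Prop where
  cont : Continuous g
  mono : Monotone g
  zero : g 0 = 0
  per : ∀ t, g (t + 1) = g t + 1
  map : ∀ t, F (R t y) = R (g t) (F y)

/-- other base points -/
lemma Lft.shift (h : Flw R) {F : N → N} {y : N} {g : ℝ → ℝ} (hg : Lft R F y g) (a : ℝ) :
    Lft R F (R a y) (fun t => g (t + a) - g a) where
  cont := (hg.cont.comp (continuous_id.add continuous_const)).sub continuous_const
  mono := fun s t hst => sub_le_sub_right (hg.mono (by linarith)) _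
  zero := by simp
  per := fun t => by
    have e : t + 1 + a = t + a + 1 := by ring
    rw [e, hg.per]; ring
  map := fun t => by
    rw [← h.add, hg.map, hg.map, ← h.add, sub_add_cancel]

/-- a continuous function with integer values is constant -/
lemma int_const {f : ℝ → ℝ} (hf : Continuous f) (h : ∀ t, ∃ l : ℤ, f t = l) (s t : ℝ) :
    f s = f t := by
  have h1 : IsPreconnected (range f) := isPreconnected_range hf
  have h2 : (range f).OrdConnected := h1.ordConnected
  have key : ∀ s t, ¬ f s < f t := by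
    intro s t hst
    obtain ⟨a, ha⟩ := h s
    obtain ⟨b, hb⟩ := h t
    have h3 : (a : ℝ) < b := by rw [← ha, ← hb]; exact hst
    have h4 : a + 1 ≤ b := by exact_mod_cast h3
    have h4' : (a : ℝ) + 1 ≤ b := by exact_mod_cast h4
    have h5 : (a : ℝ) + 1 / 2 ∈ range f := h2.out ⟨s, rfl⟩ ⟨t, rfl⟩
      ⟨by rw [ha]; linarith, by rw [hb]; linarith⟩
    obtain ⟨x, hx⟩ := h5
    obtain ⟨l, hl⟩ := h x
    rw [hx] at hl
    have h6 : (2 * a + 1 : ℤ) = 2 * l := by
      have : (2 * (a : ℝ) + 1) = 2 * l := by linarith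
      exact_mod_cast this
    omega
  exact le_antisymm (not_lt.1 (key t s)) (not_lt.1 (key s t))

lemma exists_lift (h : Flw R) {F : N → N} (hF : Function.Injective F) {y : N} (hy : Cy R y)
    (hy' : Cy R (F y))
    (hg : ∃ g : ℝ → ℝ, Continuous g ∧ Monotone g ∧ ∀ t, F (R t y) = R (g t) (F y)) :
    ∃ g, Lft R F y g := by
  obtain ⟨g, hc, hm, hmap⟩ := hg
  have hint : ∃ l : ℤ, g 0 = l := by
    apply (hy' _).1
    rw [← hmap, h.zero]
  obtain ⟨l, hl⟩ := hint
  have hinj : ∀ s t, (∃ j : ℤ, g s - g t = j) → ∃ j : ℤ, s - t = j := by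
    rintro s t ⟨j, hj⟩
    apply hy.inj h
    apply hF
    rw [hmap, hmap]
    have : g s = g t + j := by linarith
    rw [this, hy'.add_int h]
  have hd1 : ∀ t, ∃ j : ℤ, g (t + 1) - g t = j := by
    intro t
    apply hy'.inj h
    rw [← hmap, ← hmap]
    congr 1
    have := hy.add_int h t 1
    rwa [Int.cast_one] at this
  have hd2 : ∀ t, g (t + 1) - g t = g 1 - g 0 := by
    intro t
    have := int_const (f := fun t => g (t + 1) - g t)
      ((hc.comp (continuous_id.add continuous_const)).sub hc) hd1 t 0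
    simpa using this
  obtain ⟨d, hd⟩ : ∃ d : ℤ, g 1 - g 0 = d := by
    have := hd1 0
    rwa [zero_add] at this
  have hd3 : (0 : ℤ) ≤ d := by
    have h1 : (0 : ℝ) ≤ d := by rw [← hd]; linarith [hm zero_le_one]
    exact_mod_cast h1
  have hd4 : d ≠ 0 := by
    intro h0
    rw [h0, Int.cast_zero] at hd
    have h1 : g (1 / 2) = g 0 := le_antisymm ((hm (by norm_num : (1 / 2 : ℝ) ≤ 1)).trans (by linarith))
      (hm (by norm_num))
    obtain ⟨j, hj⟩ := hinj (1 / 2) 0 ⟨0, by rw [h1]; simp⟩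
    have h2 : (1 : ℤ) = 2 * j := by
      have : (1 : ℝ) = 2 * j := by linarith
      exact_mod_cast this
    omega
  have hd5 : ¬ 2 ≤ d := by
    intro h2
    have h2' : (2 : ℝ) ≤ d := by exact_mod_cast h2
    obtain ⟨s, hs, hs2⟩ := intermediate_value_Icc (zero_le_one (α := ℝ)) hc.continuousOn
      (show g 0 + 1 ∈ Icc (g 0) (g 1) from ⟨by linarith, by linarith⟩)
    obtain ⟨j, hj⟩ := hinj s 0 ⟨1, by rw [hs2]; simp⟩
    rw [sub_zero] at hj
    have h3 : (0 : ℝ) ≤ j := by rw [← hj]; exact hs.1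
    have h4 : (j : ℝ) ≤ 1 := by rw [← hj]; exact hs.2
    have h3' : (0 : ℤ) ≤ j := by exact_mod_cast h3
    have h4' : j ≤ (1 : ℤ) := by exact_mod_cast h4
    have h5 : j = 0 ∨ j = 1 := by omega
    rcases h5 with h5 | h5
    · rw [h5, Int.cast_zero] at hj
      rw [hj] at hs2
      linarith
    · rw [h5, Int.cast_one] at hj
      rw [hj] at hs2
      linarith
  have hd6 : d = 1 := by omega
  refine ⟨fun t => g t - l, hc.sub continuous_const, fun s t hst => sub_le_sub_right (hm hst) _,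
    by simp [hl], fun t => ?_, fun t => ?_⟩
  · have := hd2 t
    rw [hd, hd6, Int.cast_one] at this
    show g (t + 1) - l = g t - l + 1
    linarith
  · rw [hmap]
    have h1 := hy'.add_int h (g t - l) l
    rw [sub_add_cancel] at h1
    exact h1

/-- the iterated lifts -/
def W (g : ℕ → ℝ → ℝ) (c : ℝ) : ℕ → ℝ → ℝ
  | 0, t => t
  | j + 1, t => g j (W g c j t) + c

section
variable {F : N → N} {y : N} {g : ℕ → ℝ → ℝ}

lemma W_cont (hg : ∀ j, Lft R F (F^[j] y) (g j)) (j : ℕ) :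
    Continuous fun q : ℝ × ℝ => W g q.1 j q.2 := by
  induction j with
  | zero => exact continuous_snd
  | succ j ih => exact ((hg j).cont.comp ih).add continuous_fst

lemma W_per (hg : ∀ j, Lft R F (F^[j] y) (g j)) (c : ℝ) (j : ℕ) (t : ℝ) :
    W g c j (t + 1) = W g c j t + 1 := by
  induction j with
  | zero => rfl
  | succ j ih =>
    show g j (W g c j (t + 1)) + c = g j (W g c j t) + c + 1
    rw [ih, (hg j).per]
    ring

lemma W_mono (hg : ∀ j, Lft R F (F^[j] y) (g j)) (c : ℝ) (j : ℕ) : Monotone (W g c j) := by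
  induction j with
  | zero => exact monotone_id
  | succ j ih =>
    intro s t hst
    show g j (W g c j s) + c ≤ g j (W g c j t) + c
    linarith [(hg j).mono (ih hst)]

lemma W_inc0 (hg : ∀ j, Lft R F (F^[j] y) (g j)) {c c' : ℝ} (hc : c ≤ c') (j : ℕ) (t : ℝ) :
    W g c j t ≤ W g c' j t := by
  induction j with
  | zero => exact le_rfl
  | succ j ih =>
    show g j (W g c j t) + c ≤ g j (W g c' j t) + c'
    linarith [(hg j).mono ih]

lemma W_inc (hg : ∀ j, Lft R F (F^[j] y) (g j)) {c c' : ℝ} (hc : c ≤ c') {j : ℕ} (hj : 1 ≤ j)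
    (t : ℝ) : W g c j t + (c' - c) ≤ W g c' j t := by
  obtain ⟨i, rfl⟩ : ∃ i, j = i + 1 := ⟨j - 1, by omega⟩
  show g i (W g c i t) + c + (c' - c) ≤ g i (W g c' i t) + c'
  linarith [(hg i).mono (W_inc0 hg hc i t)]

lemma W_zero (hg : ∀ j, Lft R F (F^[j] y) (g j)) (j : ℕ) : W g 0 j 0 = 0 := by
  induction j with
  | zero => rfl
  | succ j ih =>
    show g j (W g 0 j 0) + 0 = 0
    rw [ih, (hg j).zero, add_zero]

lemma W_iter (h : Flw R) (hg : ∀ j, Lft R F (F^[j] y) (g j)) (c : ℝ) (j : ℕ) (t : ℝ) :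
    (fun z => R c (F z))^[j] (R t y) = R (W g c j t) (F^[j] y) := by
  induction j with
  | zero => rfl
  | succ j ih =>
    rw [Function.iterate_succ_apply', ih, (hg j).map, ← h.add, Function.iterate_succ_apply', add_comm]
    rfl

lemma W_iter0 (h : Flw R) (hg : ∀ j, Lft R F (F^[j] y) (g j)) (j : ℕ) (t : ℝ) :
    F^[j] (R t y) = R (W g 0 j t) (F^[j] y) := by
  have h1 := W_iter h hg 0 j t
  have e : (fun z => R 0 (F z)) = F := funext fun z => h.zero _
  rwa [e] at h1

end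

/-- `F` maps the circles of the iterates of `y` to each other. -/
def Gd (R : ℝ → N → N) (F : N → N) (y : N) : Prop :=
  ∀ i : ℕ, Cy R (F^[i] y) ∧ ∃ g, Lft R F (F^[i] y) g

lemma Gd.shift (h : Flw R) {F : N → N} {y : N} (hy : Gd R F y) (a : ℝ) : Gd R F (R a y) := by
  choose g hg using fun i => (hy i).2
  intro i
  rw [W_iter0 h hg]
  exact ⟨(hy i).1.shift h _, _, (hg i).shift h _⟩

lemma Gd.iter {F : N → N} {y : N} (hy : Gd R F y) (j : ℕ) : Gd R F (F^[j] y) := by
  intro i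
  rw [← Function.iterate_add_apply]
  exact hy (i + j)

/-- No periodic point `q` of `z ↦ R c (F z)` on a circle is degenerate along the circle,
for `|c| < κ`. -/
def NonDegC (R : ℝ → N → N) (F : N → N) (κ : ℝ) : Prop :=
  ∀ c : ℝ, |c| < κ → ∀ (q : N) (M : ℕ), Cy R q → 1 ≤ M → (fun z => R c (F z))^[M] q = q →
    ∀ u : ℝ → ℝ, Continuous u → u 0 = 0 →
      (∀ s, (fun z => R c (F z))^[M] (R s q) = R (u s) q) →
      ¬ IsLocalMax (fun s => u s - s) 0 ∧ ¬ IsLocalMin (fun s => u s - s) 0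

section
variable {F : N → N} {y : N} {g : ℕ → ℝ → ℝ}

lemma zero_per (h : Flw R) (hy1 : Cy R y) (hg : ∀ j, Lft R F (F^[j] y) (g j)) {M : ℕ}
    {t₀ : ℝ} (hy : F^[M] y = R t₀ y) {p : ℤ} {c t : ℝ} (h0 : W g c M t + t₀ - t - p = 0) :
    (fun z => R c (F z))^[M] (R t y) = R t y := by
  rw [W_iter h hg, hy, ← h.add]
  have : W g c M t + t₀ = t + p := by linarith
  rw [this, hy1.add_int h]

/-- the family of displacements -/
theorem fam_of (h : Flw R) (hy1 : Cy R y) (hg : ∀ j, Lft R F (F^[j] y) (g j)) {κ : ℝ}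
    (hnd : NonDegC R F κ) {M : ℕ} (hM : 1 ≤ M) {t₀ : ℝ} (hy : F^[M] y = R t₀ y) (p : ℤ) :
    Fam κ (fun c t => W g c M t + t₀ - t - p) := by
  have hnd' : ∀ c t, |c| < κ → W g c M t + t₀ - t - p = 0 →
      ¬ IsLocalMax (fun t => W g c M t + t₀ - t - p) t ∧
      ¬ IsLocalMin (fun t => W g c M t + t₀ - t - p) t := by
    intro c t hc h0
    have h1 := zero_per h hy1 hg hy h0
    obtain ⟨u, hu⟩ : ∃ u : ℝ → ℝ, u = fun s => W g c M (t + s) + t₀ - t - p := ⟨_, rfl⟩
    have hWc : Continuous (fun s => W g c M s) :=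
      (W_cont hg M).comp (continuous_const.prodMk continuous_id)
    have huc : Continuous u := by
      rw [hu]
      exact (((hWc.comp (continuous_const.add continuous_id)).add continuous_const).sub
        continuous_const).sub continuous_const
    have hu0 : u 0 = 0 := by rw [hu]; simpa using h0
    have hus : ∀ s, (fun z => R c (F z))^[M] (R s (R t y)) = R (u s) (R t y) := by
      intro s
      rw [← h.add, add_comm, W_iter h hg, hy, ← h.add, ← h.add, hu]
      have : W g c M (t + s) + t₀ - t - p + t + p = W g c M (t + s) + t₀ := by ring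
      rw [← hy1.add_int h (W g c M (t + s) + t₀ - t - p + t) p, this]
    obtain ⟨h2, h3⟩ := hnd c hc (R t y) M (hy1.shift h t) hM h1 u huc hu0 hus
    have htend : Tendsto (fun s : ℝ => t + s) (𝓝 0) (𝓝 t) := by
      have : Tendsto (fun s : ℝ => t + s) (𝓝 0) (𝓝 (t + 0)) :=
        (continuous_const.add continuous_id).tendsto 0
      rwa [add_zero] at this
    constructor
    · intro hmax
      apply h2
      filter_upwards [htend.eventually hmax] with s hs
      simp only [hu] at *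
      rw [add_zero]
      linarith
    · intro hmin
      apply h3
      filter_upwards [htend.eventually hmin] with s hs
      simp only [hu] at *
      rw [add_zero]
      linarith
  refine ⟨?_, fun c t => ?_, fun c c' t hc => ?_, fun c t hc h0 => (hnd' c t hc h0).1,
    fun c t hc h0 => (hnd' c t hc h0).2⟩
  · exact (((W_cont hg M).add continuous_const).sub continuous_snd).sub continuous_const
  · show W g c M (t + 1) + t₀ - (t + 1) - p = W g c M t + t₀ - t - p
    rw [W_per hg]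
    ring
  · show W g c M t + t₀ - t - p + (c' - c) ≤ W g c' M t + t₀ - t - p
    linarith [W_inc hg hc hM t]

/-- pigeonhole -/
lemma close_returns (a : ℕ → ℝ) {κ : ℝ} (hκ : 0 < κ) :
    ∃ i j : ℕ, i < j ∧ j ≤ ⌊1 / κ⌋₊ + 1 ∧ ∃ p : ℤ, |a j - a i - p| < κ := by
  classical
  have h1 : ∃ i ∈ Finset.range (⌊1 / κ⌋₊ + 2), ∃ j ∈ Finset.range (⌊1 / κ⌋₊ + 2), i ≠ j ∧
      ⌊Int.fract (a i) / κ⌋₊ = ⌊Int.fract (a j) / κ⌋₊ := by
    refine Finset.exists_ne_map_eq_of_card_lt_of_maps_to (t := Finset.range (⌊1 / κ⌋₊ + 1))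
      (by simp) (fun i _ => ?_)
    rw [Finset.mem_coe, Finset.mem_range, Nat.lt_succ_iff]
    apply Nat.floor_le_floor
    have := (Int.fract_lt_one (a i)).le
    gcongr
  have key : ∀ i j : ℕ, ⌊Int.fract (a i) / κ⌋₊ = ⌊Int.fract (a j) / κ⌋₊ →
      Int.fract (a j) - Int.fract (a i) < κ := by
    intro i j hij
    have h2 : Int.fract (a j) / κ < ⌊Int.fract (a j) / κ⌋₊ + 1 := Nat.lt_floor_add_one _
    have h3 : (⌊Int.fract (a i) / κ⌋₊ : ℝ) ≤ Int.fract (a i) / κ :=
      Nat.floor_le (div_nonneg (Int.fract_nonneg _) hκ.le)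
    rw [← hij] at h2
    have h4 : Int.fract (a j) / κ < Int.fract (a i) / κ + 1 := by linarith
    rw [div_add_one hκ.ne', div_lt_div_iff_of_pos_right hκ] at h4
    linarith
  have h2 : ∃ i j : ℕ, i < j ∧ j ≤ ⌊1 / κ⌋₊ + 1 ∧
      ⌊Int.fract (a i) / κ⌋₊ = ⌊Int.fract (a j) / κ⌋₊ := by
    obtain ⟨i, hi, j, hj, hij, he⟩ := h1
    rw [Finset.mem_range] at hi hj
    rcases lt_or_gt_of_ne hij with h | h
    · exact ⟨i, j, h, by omega, he⟩
    · exact ⟨j, i, h, by omega, he.symm⟩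
  obtain ⟨i, j, hij, hj, he⟩ := h2
  refine ⟨i, j, hij, hj, ⌊a j⌋ - ⌊a i⌋, ?_⟩
  have h4 := Int.fract_add_floor (a i)
  have h5 := Int.fract_add_floor (a j)
  have h6 := key i j he
  have h7 := key j i he.symm
  push_cast
  rw [abs_lt]
  constructor <;> linarith

/-- the iterates stay on the circle -/
lemma on_circle (h : Flw R) (hg : ∀ j, Lft R F (F^[j] y) (g j)) {m : ℕ} {t₀ : ℝ}
    (hy : F^[m] y = R t₀ y) (j : ℕ) : ∃ a : ℝ, F^[j * m] y = R a y := by
  induction j with
  | zero => exact ⟨0, by rw [zero_mul, h.zero]; rfl⟩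
  | succ j ih =>
    obtain ⟨a, ha⟩ := ih
    have h2 := W_iter0 h hg m a
    rw [hy, ← h.add] at h2
    exact ⟨W g 0 m a + t₀, by
      rw [Nat.succ_mul, add_comm (j * m), Function.iterate_add_apply, ha, h2]⟩

/-- Every periodic circle contains a periodic point. -/
theorem exists_per (h : Flw R) (hgd : Gd R F y) {κ : ℝ} (hκ : 0 < κ)
    (hnd : NonDegC R F κ) {m : ℕ} (hm : 1 ≤ m) {t₀ : ℝ} (hy : F^[m] y = R t₀ y) :
    ∃ (t : ℝ) (l : ℕ), 1 ≤ l ∧ F^[l] (R t y) = R t y := by
  choose g₀ hg₀ using fun i => (hgd i).2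
  choose a ha using on_circle h hg₀ hy
  obtain ⟨i, j, hij, -, p, hp⟩ := close_returns a hκ
  obtain ⟨z, hz⟩ : ∃ z, z = R (a i) y := ⟨_, rfl⟩
  obtain ⟨M, hM⟩ : ∃ M, M = (j - i) * m := ⟨_, rfl⟩
  have hM1 : 1 ≤ M := by rw [hM]; exact Nat.mul_pos (by omega) hm
  have hzM : F^[M] z = R (a j - a i) z := by
    rw [hz, ← ha i, ← Function.iterate_add_apply, hM, ← add_mul, Nat.sub_add_cancel hij.le, ha,
      ha, ← h.add, sub_add_cancel]
  have hzg : Gd R F z := by rw [hz]; exact hgd.shift h _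
  have hz1 : Cy R z := (hzg 0).1
  choose g hg using fun i => (hzg i).2
  have hfam := fam_of h hz1 hg hnd hM1 hzM p
  obtain ⟨H, hH⟩ : ∃ H : ℝ → ℝ → ℝ, H = fun c t => W g c M t + (a j - a i) - t - p := ⟨_, rfl⟩
  rw [← hH] at hfam
  have hH0 : H 0 0 = a j - a i - p := by
    rw [hH]
    show W g 0 M 0 + (a j - a i) - 0 - p = a j - a i - p
    rw [W_zero hg]
    ring
  have hp' := abs_lt.1 hp
  have hzero : ∃ c, |c| < κ ∧ H c 0 = 0 := by
    rcases le_total (H 0 0) 0 with h0 | h0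
    · have h2 : 0 ≤ H (-(H 0 0)) 0 := by
        have := hfam.inc 0 (-(H 0 0)) 0 (by linarith)
        linarith
      obtain ⟨c, hc, hc0⟩ := intermediate_value_Icc (a := 0) (b := -(H 0 0)) (by linarith)
        (hfam.cont2 0).continuousOn (show (0 : ℝ) ∈ Icc (H 0 0) (H (-(H 0 0)) 0) from ⟨h0, h2⟩)
      refine ⟨c, ?_, hc0⟩
      rw [abs_of_nonneg hc.1]
      linarith [hc.2, hp'.1]
    · have h2 : H (-(H 0 0)) 0 ≤ 0 := by
        have := hfam.inc (-(H 0 0)) 0 0 (by linarith)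
        linarith
      obtain ⟨c, hc, hc0⟩ := intermediate_value_Icc (a := -(H 0 0)) (b := 0) (by linarith)
        (hfam.cont2 0).continuousOn (show (0 : ℝ) ∈ Icc (H (-(H 0 0)) 0) (H 0 0) from ⟨h2, h0⟩)
      refine ⟨c, ?_, hc0⟩
      rw [abs_of_nonpos hc.2]
      linarith [hc.1, hp'.2]
  obtain ⟨c, hc, hc0⟩ := hzero
  obtain ⟨t, ht⟩ := hfam.exists_zero hc hc0
  rw [hH] at ht
  have h3 := zero_per h hz1 hg hzM ht
  have e : (fun z => R 0 (F z)) = F := funext fun z => h.zero _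
  rw [e, hz, ← h.add] at h3
  exact ⟨t + a i, M, hM1, h3⟩

/-- Distinct periodic points on a circle are far apart. -/
theorem per_sep (h : Flw R) {x : N} (hgd : Gd R F x) {κ : ℝ} (hκ : 0 < κ) (hκ1 : κ < 1)
    (hnd : NonDegC R F κ) {l l' : ℕ} (hl : 1 ≤ l) (hl' : 1 ≤ l') (hx : F^[l] x = x) {s : ℝ}
    (hx' : F^[l'] (R s x) = R s x) (hne : R s x ≠ x) : κ / 2 ≤ |s| := by
  by_contra hcon
  push Not at hcon
  have hs1 := abs_lt.1 (hcon.trans (by linarith : κ / 2 < 1))
  have hx1 : Cy R x := (hgd 0).1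
  choose g hg using fun i => (hgd i).2
  obtain ⟨M, hM⟩ : ∃ M, M = l * l' := ⟨_, rfl⟩
  have hM1 : 1 ≤ M := by rw [hM]; exact Nat.mul_pos hl hl'
  have hMx : F^[M] x = x := by
    rw [hM, Function.iterate_mul]
    exact Function.iterate_fixed hx l'
  have hMs : F^[M] (R s x) = R s x := by
    rw [hM, mul_comm, Function.iterate_mul]
    exact Function.iterate_fixed hx' l
  have hs0 : s ≠ 0 := by
    rintro rfl
    exact hne (h.zero x)
  -- the lift fixes `s`
  have hWs : W g 0 M s = s := by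
    have h1 := W_iter0 h hg M s
    rw [hMx, hMs] at h1
    obtain ⟨p, hp⟩ := hx1.inj h h1
    rcases lt_or_gt_of_ne hs0 with h2 | h2
    · have h3 : W g 0 M s ≤ W g 0 M 0 := W_mono hg 0 M h2.le
      have h4 : W g 0 M (-1) ≤ W g 0 M s := W_mono hg 0 M hs1.1.le
      have h5 := W_per hg 0 M (-1)
      rw [neg_add_cancel, W_zero hg] at h5
      rw [W_zero hg] at h3
      have h6 : (-1 : ℝ) < p := by rw [← hp]; linarith
      have h7 : (p : ℝ) < 1 := by rw [← hp]; linarith
      have h6' : (-1 : ℤ) < p := by exact_mod_cast h6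
      have h7' : p < (1 : ℤ) := by exact_mod_cast h7
      have h8 : p = 0 := by omega
      rw [h8, Int.cast_zero] at hp
      linarith
    · have h3 : W g 0 M 0 ≤ W g 0 M s := W_mono hg 0 M h2.le
      have h4 : W g 0 M s ≤ W g 0 M (0 + 1) := W_mono hg 0 M (by linarith [hs1.2])
      have h5 := W_per hg 0 M 0
      rw [h5, W_zero hg] at h4
      rw [W_zero hg] at h3
      have h6 : (-1 : ℝ) < p := by rw [← hp]; linarith
      have h7 : (p : ℝ) < 1 := by rw [← hp]; linarith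
      have h6' : (-1 : ℤ) < p := by exact_mod_cast h6
      have h7' : p < (1 : ℤ) := by exact_mod_cast h7
      have h8 : p = 0 := by omega
      rw [h8, Int.cast_zero] at hp
      linarith
  have hfam := fam_of h hx1 hg hnd hM1 (t₀ := 0) (by rw [h.zero]; exact hMx) 0
  have hz0 : W g 0 M 0 + 0 - 0 - ((0 : ℤ) : ℝ) = 0 := by rw [W_zero hg]; simp
  have hzs : W g 0 M s + 0 - s - ((0 : ℤ) : ℝ) = 0 := by rw [hWs]; simp
  have hmono : ∀ t t' : ℝ, t ≤ t' → W g 0 M t + 0 - t - ((0 : ℤ) : ℝ) + t ≤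
      W g 0 M t' + 0 - t' - ((0 : ℤ) : ℝ) + t' := by
    intro t t' htt
    linarith [W_mono hg 0 M htt]
  rcases lt_or_gt_of_ne hs0 with h2 | h2
  · have h3 := hfam.sep hκ hmono h2 hzs hz0
    have h4 := abs_of_neg h2
    linarith
  · have h3 := hfam.sep hκ hmono h2 hz0 hzs
    have h4 := abs_of_pos h2
    linarith

/-- Periodic points on circles are attracting or repelling along the circle, with basins of a uniform
size. -/
theorem per_basin (h : Flw R) {x : N} (hgd : Gd R F x) {κ : ℝ} (hκ : 0 < κ)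
    (hnd : NonDegC R F κ) {l : ℕ} (hl : 1 ≤ l) (hx : F^[l] x = x) :
    ∃ u : ℝ → ℝ, Continuous u ∧ Monotone u ∧ u 0 = 0 ∧ (∀ s, F^[l] (R s x) = R (u s) x) ∧
      ((∀ s, 0 < |s| → |s| < κ / 2 → |u s| < |s|) ∨
        ∀ s, 0 < |s| → |s| < κ / 2 → |s| < |u s|) := by
  have hx1 : Cy R x := (hgd 0).1
  choose g hg using fun i => (hgd i).2
  have hWc : Continuous (fun s => W g 0 l s) :=
    (W_cont hg l).comp (continuous_const.prodMk continuous_id)
  have hfam := fam_of h hx1 hg hnd hl (t₀ := 0) (by rw [h.zero]; exact hx) 0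
  have e : ∀ s : ℝ, W g 0 l s + 0 - s - ((0 : ℤ) : ℝ) = W g 0 l s - s := fun s => by simp
  have hz0 : W g 0 l 0 + 0 - 0 - ((0 : ℤ) : ℝ) = 0 := by rw [W_zero hg]; simp
  have hmono : ∀ t t' : ℝ, t ≤ t' → W g 0 l t + 0 - t - ((0 : ℤ) : ℝ) + t ≤
      W g 0 l t' + 0 - t' - ((0 : ℤ) : ℝ) + t' := by
    intro t t' htt
    linarith [W_mono hg 0 l htt]
  refine ⟨W g 0 l, hWc, W_mono hg 0 l, W_zero hg l, fun s => ?_, ?_⟩
  · have h1 := W_iter0 h hg l s
    rwa [hx] at h1
  · have hpos : ∀ s, 0 < s → 0 ≤ W g 0 l s := by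
      intro s hs
      have := W_mono hg 0 l hs.le
      rwa [W_zero hg] at this
    have hneg : ∀ s, s < 0 → W g 0 l s ≤ 0 := by
      intro s hs
      have := W_mono hg 0 l hs.le
      rwa [W_zero hg] at this
    rcases hfam.basin hκ hmono hz0 with ⟨h1, h2⟩ | ⟨h1, h2⟩
    · left
      intro s hs hs2
      rcases lt_or_gt_of_ne (abs_pos.1 hs) with h3 | h3
      · rw [abs_of_neg h3] at hs2 ⊢
        have h4 := h2 s ⟨by linarith, h3⟩
        simp only [e] at h4
        rw [abs_of_nonpos (hneg s h3)]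
        linarith
      · rw [abs_of_pos h3] at hs2 ⊢
        have h4 := h1 s ⟨h3, hs2⟩
        simp only [e] at h4
        rw [abs_of_nonneg (hpos s h3)]
        linarith
    · right
      intro s hs hs2
      rcases lt_or_gt_of_ne (abs_pos.1 hs) with h3 | h3
      · rw [abs_of_neg h3] at hs2 ⊢
        have h4 := h2 s ⟨by linarith, h3⟩
        simp only [e] at h4
        rw [abs_of_nonpos (hneg s h3)]
        linarith
      · rw [abs_of_pos h3] at hs2 ⊢
        have h4 := h1 s ⟨h3, hs2⟩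
        simp only [e] at h4
        rw [abs_of_nonneg (hpos s h3)]
        linarith

/-- Everything together. -/
theorem circle_main (h : Flw R) (hF : Function.Injective F) (hgd : Gd R F y) {κ : ℝ} (hκ : 0 < κ)
    (hκ1 : κ < 1) (hnd : NonDegC R F κ) {m : ℕ} (hm : 1 ≤ m) {t₀ : ℝ} (hy : F^[m] y = R t₀ y) :
    ∃ (j : ℕ) (s : ℝ), 1 ≤ j ∧ j ≤ ⌊1 / (κ / 2)⌋₊ + 1 ∧ F^[j * m] (R s y) = R s y := by
  obtain ⟨s, l, hl, hper⟩ := exists_per h hgd hκ hnd hm hy
  obtain ⟨x, hx⟩ : ∃ x, x = R s y := ⟨_, rfl⟩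
  rw [← hx] at hper
  have hxg : Gd R F x := by rw [hx]; exact hgd.shift h _
  choose g₀ hg₀ using fun i => (hgd i).2
  choose g hg using fun i => (hxg i).2
  have hxm : ∃ t₁, F^[m] x = R t₁ x := by
    refine ⟨W g₀ 0 m s + t₀ - s, ?_⟩
    rw [hx, W_iter0 h hg₀, hy, ← h.add, ← h.add, sub_add_cancel]
  obtain ⟨t₁, ht₁⟩ := hxm
  choose a ha using on_circle h hg ht₁
  obtain ⟨i, j, hij, hj, p, hp⟩ := close_returns a (by positivity : 0 < κ / 2)
  obtain ⟨z, hz⟩ : ∃ z, z = F^[i * m] x := ⟨_, rfl⟩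
  have hzg : Gd R F z := by rw [hz]; exact hxg.iter _
  have hz1 : Cy R z := (hzg 0).1
  have hzj : F^[j * m] x = R (a j - a i - p) z := by
    have h1 := hz1.add_int h (a j - a i - p) p
    rw [sub_add_cancel] at h1
    rw [← h1, hz, ha i, ha j, ← h.add, sub_add_cancel]
  have hperi : ∀ b : ℕ, F^[l] (F^[b] x) = F^[b] x := by
    intro b
    rw [← Function.iterate_add_apply, add_comm, Function.iterate_add_apply, hper]
  have heq : R (a j - a i - p) z = z := by
    by_contra hne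
    have h1 := per_sep h hzg hκ hκ1 hnd hl hl (by rw [hz]; exact hperi _)
      (by rw [← hzj]; exact hperi _) hne
    linarith
  refine ⟨j - i, s, by omega, by omega, ?_⟩
  rw [← hx]
  apply hF.iterate (i * m)
  rw [← Function.iterate_add_apply, ← add_mul]
  have : i + (j - i) = j := by omega
  rw [this, hzj, heq, hz]

end

end Pool.Agent.Helper16.CB
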