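import Mathlib
import Pool.Agent.Helper16.OL.Omega
import Pool.Agent.Helper16.OL.Time
import Pool.Agent.Helper16.CB.Lift

/-! Periodic points which are degenerate along their circle are not hyperbolic. -/

open scoped Topology ContDiff Manifold
open Set Metric Filter

noncomputable section

set_option linter.unusedSectionVars false

namespace Pool.Agent.Helper16.CB

open Pool.Agent.H718R2.G Pool.Agent.R774.Cl Pool.Agent.R774.ClStmt Pool.Agent.W564.SC
open Pool.Agent.R774.OS Pool.Agent.TH80.OMS Pool.Agent.Helper16.OL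
open Pool.Agent.Y504.CO (HypAt NoBdd)

universe u

/-- a reparametrisation with an extremal displacement has derivative one -/
lemma extr_deriv {E : Type*} [NormedAddCommGroup E] [NormedSpace ℝ E] {a : ℝ → E}
    (ha : ContDiffAt ℝ 1 a 0) {w w' : E} (hw : HasDerivAt a w 0) (hw0 : w ≠ 0) {u : ℝ → ℝ}
    (hu : ContinuousAt u 0) (u0 : u 0 = 0) (hb : HasDerivAt (fun s => a (u s)) w' 0)
    (hext : IsLocalMax (fun s => u s - s) 0 ∨ IsLocalMin (fun s => u s - s) 0) : w' = w := by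
  obtain ⟨ℓ, hℓ⟩ := SeparatingDual.exists_ne_zero (R := ℝ) hw0
  have hstr : HasStrictDerivAt a w 0 := by
    have h1 := ha.hasStrictDerivAt (by norm_num)
    rwa [hw.deriv] at h1
  have hA : HasStrictDerivAt (fun s => ℓ (a s)) (ℓ w) 0 := ℓ.hasStrictFDerivAt.comp_hasStrictDerivAt 0 hstr
  have hB := hA.to_localInverse hℓ
  have hβ : HasDerivAt (fun s => ℓ (a (u s))) (ℓ w') 0 := ℓ.hasFDerivAt.comp_hasDerivAt 0 hb
  have h1 := hA.eventually_left_inverse hℓ
  have hu' : Tendsto u (𝓝 0) (𝓝 0) := by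
    have := hu.tendsto
    rwa [u0] at this
  have h2 : u =ᶠ[𝓝 0] fun s => hA.localInverse _ _ _ hℓ (ℓ (a (u s))) := by
    filter_upwards [hu'.eventually h1] with s hs
    exact hs.symm
  have hB' : HasDerivAt (hA.localInverse _ _ _ hℓ) (ℓ w)⁻¹ ((fun s => ℓ (a (u s))) 0) := by
    have := hB.hasDerivAt
    show HasDerivAt _ _ (ℓ (a (u 0)))
    rw [u0]
    exact this
  have h3 : HasDerivAt u ((ℓ w)⁻¹ * ℓ w') 0 :=
    (hB'.comp (0 : ℝ) hβ).congr_of_eventuallyEq h2
  have h4 : HasDerivAt (fun s => u s - s) ((ℓ w)⁻¹ * ℓ w' - 1) 0 := h3.sub (hasDerivAt_id 0)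
  have h5 : (ℓ w)⁻¹ * ℓ w' - 1 = 0 := by
    rcases hext with h | h
    · exact h.hasDerivAt_eq_zero h4
    · exact h.hasDerivAt_eq_zero h4
  have h6 : (ℓ w)⁻¹ * ℓ w' = 1 := by linarith
  rw [h6] at h3
  have h7 : HasDerivAt (fun s => a (u s)) ((1 : ℝ) • w) 0 := by
    have hw2 : HasDerivAt a w (u 0) := by rw [u0]; exact hw
    exact hw2.scomp (0 : ℝ) h3
  rw [one_smul] at h7
  exact hb.unique h7

section
variable {n : ℕ} {N : Type u} [TopologicalSpace N] [ChartedSpace (V n) N]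
  [IsManifold (𝓡 n) ∞ N]

/-- the line `s ↦ toV s` -/
lemma toV_eq (s : ℝ) : toV s = s • toV 1 := by
  ext i
  rw [toV_apply, PiLp.smul_apply, toV_apply, smul_eq_mul, mul_one]

lemma toV_smooth : ContDiff ℝ ∞ toV := by
  have : toV = fun s : ℝ => s • toV 1 := funext toV_eq
  rw [this]
  fun_prop

/-- orbits are smooth curves -/
lemma curve_smooth {R : V 1 → N → N} (hR : IsAction 1 n N R) (q : N) :
    ContMDiff 𝓘(ℝ, ℝ) (𝓡 n) ∞ (fun s : ℝ => R (toV s) q) := by
  have h1 : ContMDiff 𝓘(ℝ, ℝ) (𝓡 1) ∞ toV := toV_smooth.contMDiff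
  exact hR.smooth.comp (h1.prodMk contMDiff_const)

lemma chart_curve {R : V 1 → N → N} (hR : IsAction 1 n N R) (z q : N) {s : ℝ}
    (hs : R (toV s) q ∈ (extChartAt (𝓡 n) z).source) :
    ContDiffAt ℝ 1 (fun s : ℝ => extChartAt (𝓡 n) z (R (toV s) q)) s := by
  have h1 : ContMDiffAt (𝓡 n) (𝓡 n) 1 (extChartAt (𝓡 n) z) (R (toV s) q) := cmd_ext hs
  have h2 : ContMDiffAt 𝓘(ℝ, ℝ) (𝓡 n) 1 (fun s : ℝ => R (toV s) q) s :=
    ((curve_smooth hR q).of_le (by simp)).contMDiffAt
  exact (ContMDiffAt.comp (g := extChartAt (𝓡 n) z) s h1 h2).contDiffAt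

/-- maps in charts are differentiable -/
lemma chart_diff {f : N → N} (hf : ContMDiff (𝓡 n) (𝓡 n) 1 f) {a b x : N}
    (hx : x ∈ (extChartAt (𝓡 n) a).source) (hfx : f x ∈ (extChartAt (𝓡 n) b).source) :
    DifferentiableAt ℝ (fun p => extChartAt (𝓡 n) b (f ((extChartAt (𝓡 n) a).symm p)))
      (extChartAt (𝓡 n) a x) := by
  have hs := (extChartAt (𝓡 n) a).left_inv hx
  have h2 : MDifferentiableAt (𝓡 n) (𝓡 n) (fun p => f ((extChartAt (𝓡 n) a).symm p))
      (extChartAt (𝓡 n) a x) :=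
    MDifferentiableAt.comp (g := f) _ (hf.mdifferentiableAt one_ne)
      ((cmd_symm a ((extChartAt (𝓡 n) a).map_source hx)).mdifferentiableAt one_ne)
  have h3 : MDifferentiableAt (𝓡 n) (𝓡 n)
      (fun p => extChartAt (𝓡 n) b (f ((extChartAt (𝓡 n) a).symm p)))
      (extChartAt (𝓡 n) a x) := by
    refine MDifferentiableAt.comp (g := extChartAt (𝓡 n) b) _ (md_ext ?_) h2
    rw [hs]
    exact hfx
  exact h3.differentiableAt

/-- the derivative of the image of an orbit, in charts -/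
lemma map_curve {R : V 1 → N → N} (hR : IsAction 1 n N R) {f : N → N}
    (hf : ContMDiff (𝓡 n) (𝓡 n) 1 f) {q b : N} (hb : f q ∈ (extChartAt (𝓡 n) b).source) {w : V n}
    (hw : HasDerivAt (fun s : ℝ => extChartAt (𝓡 n) q (R (toV s) q)) w 0) :
    HasDerivAt (fun s : ℝ => extChartAt (𝓡 n) b (f (R (toV s) q)))
      (fderiv ℝ (fun p => extChartAt (𝓡 n) b (f ((extChartAt (𝓡 n) q).symm p)))
        (extChartAt (𝓡 n) q q) w) 0 := by
  have h00 : toV 0 = 0 := rfl
  have hz : R (toV 0) q = q := by rw [h00, hR.zero]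
  have h1 := (chart_diff hf (mem_extChartAt_source (I := 𝓡 n) q) hb).hasFDerivAt
  have h2 : HasFDerivAt (fun p => extChartAt (𝓡 n) b (f ((extChartAt (𝓡 n) q).symm p)))
      (fderiv ℝ (fun p => extChartAt (𝓡 n) b (f ((extChartAt (𝓡 n) q).symm p)))
        (extChartAt (𝓡 n) q q)) ((fun s : ℝ => extChartAt (𝓡 n) q (R (toV s) q)) 0) := by
    show HasFDerivAt _ _ (extChartAt (𝓡 n) q (R (toV 0) q))
    rw [hz]
    exact h1
  refine (h2.comp_hasDerivAt (0 : ℝ) hw).congr_of_eventuallyEq ?_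
  have h3 : ∀ᶠ s in 𝓝 (0 : ℝ), R (toV s) q ∈ (extChartAt (𝓡 n) q).source := by
    have hc : Continuous fun s : ℝ => R (toV s) q := (curve_smooth hR q).continuous
    have h4 : (extChartAt (𝓡 n) q).source ∈ 𝓝 (R (toV 0) q) := by
      rw [hz]
      exact extChartAt_source_mem_nhds q
    exact hc.continuousAt.eventually h4
  filter_upwards [h3] with s hs
  show _ = extChartAt (𝓡 n) b (f ((extChartAt (𝓡 n) q).symm (extChartAt (𝓡 n) q (R (toV s) q))))
  rw [(extChartAt (𝓡 n) q).left_inv hs]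

/-- the orbits of an action without fixed points are immersed -/
lemma curve_ne [T2Space N] {R : V 1 → N → N} (hR : IsAction 1 n N R) {q : N} {s₁ : ℝ}
    (hs₁ : R (toV s₁) q ≠ q) :
    ¬ HasDerivAt (fun s : ℝ => extChartAt (𝓡 n) q (R (toV s) q)) (0 : V n) 0 := by
  intro hw
  apply hs₁
  have hc : Continuous fun s : ℝ => R (toV s) q := (curve_smooth hR q).continuous
  have hadd : ∀ s t : ℝ, toV s + toV t = toV (s + t) := fun s t => rfl
  have hd : ∀ (z : N) (s : ℝ), R (toV s) q ∈ (extChartAt (𝓡 n) z).source →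
      HasDerivAt (fun s : ℝ => extChartAt (𝓡 n) z (R (toV s) q)) (0 : V n) s := by
    intro z s hs
    have h1 : ContMDiff (𝓡 n) (𝓡 n) 1 (R (toV s)) := by
      have : ContMDiff (𝓡 n) (𝓡 n) ∞ (R (toV s)) :=
        hR.smooth.comp (contMDiff_const.prodMk contMDiff_id)
      exact this.of_le (by simp)
    have h2 := map_curve hR h1 hs hw
    rw [map_zero] at h2
    have h3 : HasDerivAt (fun h : ℝ => h - s) 1 s := (hasDerivAt_id s).sub_const s
    have h4 : HasDerivAt (fun h : ℝ => extChartAt (𝓡 n) z (R (toV s) (R (toV h) q))) (0 : V n)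
        ((fun h : ℝ => h - s) s) := by
      show HasDerivAt _ _ (s - s)
      rw [sub_self]
      exact h2
    have h5 := h4.scomp (h := fun h : ℝ => h - s) s h3
    rw [smul_zero] at h5
    refine h5.congr_of_eventuallyEq (Eventually.of_forall fun h => ?_)
    show _ = extChartAt (𝓡 n) z (R (toV s) (R (toV (h - s)) q))
    rw [← hR.add, hadd, add_sub_cancel]
  -- the curve is locally constant
  have hloc : IsLocallyConstant fun s : ℝ => R (toV s) q := by
    rw [IsLocallyConstant.iff_eventually_eq]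
    intro s
    obtain ⟨z, hz⟩ : ∃ z, z = R (toV s) q := ⟨_, rfl⟩
    have h1 : ∀ᶠ h in 𝓝 s, R (toV h) q ∈ (extChartAt (𝓡 n) z).source := by
      apply hc.continuousAt.eventually
      rw [hz]
      exact extChartAt_source_mem_nhds _
    obtain ⟨ε, hε, hball⟩ := Metric.eventually_nhds_iff_ball.1 h1
    filter_upwards [ball_mem_nhds s hε] with h hh
    have h2 := isOpen_ball.is_const_of_deriv_eq_zero (s := ball s ε)
      (f := fun h : ℝ => extChartAt (𝓡 n) z (R (toV h) q)) (convex_ball s ε).isPreconnected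
      (fun t ht => (hd z t (hball t ht)).differentiableAt.differentiableWithinAt)
      (fun t ht => (hd z t (hball t ht)).deriv) hh (mem_ball_self hε)
    exact (extChartAt (𝓡 n) z).injOn (hball h hh) (hball s (mem_ball_self hε)) h2
  have h3 := hloc.apply_eq_of_isPreconnected (isPreconnected_univ (α := ℝ)) (mem_univ s₁)
    (mem_univ 0)
  have h00 : toV 0 = 0 := rfl
  have h4 : R (toV s₁) q = R (toV 0) q := h3
  rw [h4, h00, hR.zero]

/-- a periodic point which is degenerate along its orbit is not hyperbolic -/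
lemma deg_not_hyp [T2Space N] {R : V 1 → N → N} (hR : IsAction 1 n N R) {q : N} {s₁ : ℝ}
    (hs₁ : R (toV s₁) q ≠ q) {G : N → N} {M : ℕ} (hM : 1 ≤ M)
    (hGM : ContMDiff (𝓡 n) (𝓡 n) 1 G^[M]) (hq : G^[M] q = q) (hyp : HypAt n G q) {u : ℝ → ℝ}
    (hu : Continuous u) (u0 : u 0 = 0) (hmap : ∀ s, G^[M] (R (toV s) q) = R (toV (u s)) q)
    (hext : IsLocalMax (fun s => u s - s) 0 ∨ IsLocalMin (fun s => u s - s) 0) : False := by
  have h00 : toV 0 = 0 := rfl
  have hz : R (toV 0) q = q := by rw [h00, hR.zero]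
  obtain ⟨a, ha⟩ : ∃ a : ℝ → V n, a = fun s : ℝ => extChartAt (𝓡 n) q (R (toV s) q) := ⟨_, rfl⟩
  have hsrc : R (toV 0) q ∈ (extChartAt (𝓡 n) q).source := by
    rw [hz]; exact mem_extChartAt_source (I := 𝓡 n) q
  have hac : ContDiffAt ℝ 1 a 0 := by rw [ha]; exact chart_curve hR q q hsrc
  have hw : HasDerivAt a (deriv a 0) 0 := (hac.differentiableAt (by norm_num)).hasDerivAt
  have hw0 : deriv a 0 ≠ 0 := by
    intro h0
    rw [h0, ha] at hw
    exact curve_ne hR hs₁ hw
  obtain ⟨A, hA⟩ : ∃ A : V n →L[ℝ] V n, A = fderiv ℝ (fun p => extChartAt (𝓡 n) q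
      (G^[M] ((extChartAt (𝓡 n) q).symm p))) (extChartAt (𝓡 n) q q) := ⟨_, rfl⟩
  have hb : HasDerivAt (fun s => a (u s)) (A (deriv a 0)) 0 := by
    have h1 := map_curve hR hGM (q := q) (b := q)
      (by rw [hq]; exact mem_extChartAt_source (I := 𝓡 n) q) (by rw [ha] at hw; exact hw)
    rw [← hA, ← ha] at h1
    refine h1.congr_of_eventuallyEq (Eventually.of_forall fun s => ?_)
    show a (u s) = extChartAt (𝓡 n) q (G^[M] (R (toV s) q))
    rw [hmap, ha]
  have hfix := extr_deriv hac hw hw0 hu.continuousAt u0 hb hext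
  have h2 := hyp M hM hq (chartAt (V n) q) (IsManifold.chart_mem_maximalAtlas q)
    (mem_chart_source (V n) q)
  have h3 : NoBdd (fun _ : ℤ => A) := by
    rw [hA]
    exact h2
  exact hw0 (h3 (fun _ => deriv a 0) ⟨‖deriv a 0‖, fun _ => le_rfl⟩ (fun _ => hfix.symm) 0)

end

end Pool.Agent.Helper16.CB
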